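import Pool.Agent.W757.BL.Defs

/-! # A collar of caustics gives constant greatest perimeters (BL-COL of helper757) -/

set_option autoImplicit false

namespace Pool.Agent.W688.BL

open Set Filter Topology
open Pool.Agent.W757.BL Pool.Agent.H719R3.BG

lemma iter_add {f : ℝ → ℝ} {L : ℝ} (h : ∀ s, f (s + L) = f s + L) (i : ℕ) :
    ∀ s, f^[i] (s + L) = f^[i] s + L := by
  induction i with
  | zero => intro s; rfl
  | succ i ih =>
    intro s
    rw [Function.iterate_succ_apply, h, ih, Function.iterate_succ_apply]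

lemma orbit_pol {x y x' y' : ℝ → ℝ} {L : ℝ} {f : ℝ → ℝ} (hf : Inv x y x' y' L f) {n : ℕ} {a : ℝ}
    (h : f^[n] a = a + L) : Pol L n (fun i => f^[i] a) where
  mono i := by
    show f^[i] a < f^[i + 1] a
    rw [Function.iterate_succ_apply']
    exact hf.lo _
  per i := by
    show f^[i + n] a = f^[i] a + L
    rw [Function.iterate_add_apply, h, iter_add hf.per]

theorem t_COL (hNEAR : S_NEAR) (hSTP : S_STP) (hSMO : S_SMO) (hRLW : S_RLW) (hHIT : S_HIT)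
    (hROT : S_ROT) (hCAL : S_CAL) : S_COL := by
  intro x y x' y' L Ω 𝒦 U hCv hCF hT hr hC
  obtain ⟨K₁, hK₁, hU, hint⟩ := hNEAR Ω 𝒦 U hT hC
  have hex : ∀ k : {K : Set ℂ // K ∈ 𝒦 ∧ K₁ ⊆ K}, ∃ f, Step x y L Ω k.1 f ∧ Continuous f ∧
      StrictMono f ∧ (∀ s, f (s + L) = f s + L) := by
    intro k
    obtain ⟨h1, h2, h3, h4, -⟩ := hC.caustic k.1 k.2.1
    exact hSTP x y x' y' L Ω k.1 hCv hCF hT hr h1 h2 h3 h4
  choose F hF using hex
  have hInv : ∀ k, Inv x y x' y' L (F k) := fun k =>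
    { cont := (hF k).2.1
      mono := (hF k).2.2.1
      per := (hF k).2.2.2
      lo := fun s => ((hF k).1 s).1
      hi := fun s => ((hF k).1 s).2.1
      law := hRLW x y x' y' L Ω k.1 (F k) hCv hCF hT hr (hC.caustic k.1 k.2.1) (hF k).1 }
  have htri : ∀ j k, (∀ s, F j s < F k s) ∨ (∀ s, F k s < F j s) ∨ j = k := by
    intro j k
    by_cases hjk : j = k
    · exact Or.inr (Or.inr hjk)
    · have hne : j.1 ≠ k.1 := fun h => hjk (Subtype.ext h)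
      rcases (hC.nest j.1 j.2.1 k.1 k.2.1 hne).2 with h | h
      · exact Or.inr (Or.inl (hSMO x y x' y' L Ω j.1 k.1 (F j) (F k) hCv hCF hT hr
          (hint j.1 j.2.1 k.1 k.2.1 h hne) (hF j).1 (hF k).1))
      · exact Or.inl (hSMO x y x' y' L Ω k.1 j.1 (F k) (F j) hCv hCF hT hr
          (hint k.1 k.2.1 j.1 j.2.1 h hne.symm) (hF k).1 (hF j).1)
  have hfill : ∀ s s', s < s' → s' ≤ F ⟨K₁, hK₁, subset_rfl⟩ s → ∃ k, F k s = s' := by
    intro s s' h1 h2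
    obtain ⟨K, hK, hKK, hRT⟩ := hHIT x y x' y' L Ω 𝒦 U K₁ (F ⟨K₁, hK₁, subset_rfl⟩) hCv hCF hT hr
      hC hK₁ hU (hF ⟨K₁, hK₁, subset_rfl⟩).1 s s' h1 h2
    refine ⟨⟨K, hK, hKK⟩, ?_⟩
    have h3 := ((hF ⟨K₁, hK₁, subset_rfl⟩).1 s).2.1
    exact (((hF ⟨K, hK, hKK⟩).1 s).2.2.2 s' h1 (h2.trans_lt h3) hRT).symm
  obtain ⟨n, hn, hrot⟩ := hROT L _ F ⟨K₁, hK₁, subset_rfl⟩ hCv.L0
    (fun k => ⟨(hF k).2.1, (hF k).2.2.1, (hF k).2.2.2, (hInv k).lo⟩) htri hfill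
  have hrot' := hrot n le_rfl
  obtain ⟨k0, hk0⟩ := hrot' 0
  have hle : ∀ c, Pol L n c → SS x y n c ≤ SS x y n (fun i => (F k0)^[i] 0) :=
    hCAL x y x' y' L hCv hCF (F k0) (hInv k0) n 0 (by omega) hk0
  refine ⟨n, hn, SS x y n (fun i => (F k0)^[i] 0), hle, fun a => ?_⟩
  obtain ⟨k, hk⟩ := hrot' a
  refine ⟨fun i => (F k)^[i] a, orbit_pol (hInv k) hk, rfl, ?_⟩
  refine le_antisymm (hle _ (orbit_pol (hInv k) hk)) ?_
  exact hCAL x y x' y' L hCv hCF (F k) (hInv k) n a (by omega) hk _ (orbit_pol (hInv k0) hk0)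

end Pool.Agent.W688.BL
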